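import Mathlib
import Pool.Agent.Helper559.Kn.Base

set_option autoImplicit false

namespace Pool.Agent.Results.MP_7b808b_an.TwoThirds

open Finset Polynomial Pool.Agent.Helper559.Kn

/-- Every entire function is a sum of `k` many `N`-th powers of entire functions. -/
def Represents (N k : ℕ) : Prop :=
  ∀ f : ℂ → ℂ, Differentiable ℂ f →
    ∃ g : Fin k → ℂ → ℂ, (∀ ν, Differentiable ℂ (g ν)) ∧ ∀ z : ℂ, f z = ∑ ν, (g ν z) ^ N

/-- The least positive integer `k` such that every entire function is a sum of `k` many `N`-th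
powers of entire functions. -/
noncomputable def kN (N : ℕ) : ℕ := sInf {k : ℕ | 1 ≤ k ∧ Represents N k}

lemma represents_of_quadratics {ι : Type} [Fintype ι] (N : ℕ) (p : ι → Fin 3 → ℂ)
    (hp : ∀ z : ℂ, ∑ i, (ev (p i) z) ^ N = z) : Represents N (Fintype.card ι) := by
  intro f hf
  refine ⟨fun ν z => ev (p ((Fintype.equivFin ι).symm ν)) (f z), fun ν => ?_, fun z => ?_⟩
  · unfold ev
    fun_prop
  · rw [← hp (f z)]
    exact (Equiv.sum_comp (Fintype.equivFin ι).symm (fun i => (ev (p i) (f z)) ^ N)).symm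

/-- The classical representation with `N` terms. -/
lemma represents_self (N : ℕ) (hN : 1 ≤ N) : Represents N N := by
  rcases Nat.lt_or_ge 1 N with h2 | h2
  · have hM0 : N ≠ 0 := by omega
    set ω : ℂ := Complex.exp (2 * Real.pi * Complex.I / (N : ℕ)) with hωdef
    have hω : IsPrimitiveRoot ω N := Complex.isPrimitiveRoot_exp N hM0
    have hNC : (N : ℂ) ≠ 0 := by exact_mod_cast hM0
    choose ζ hζ using fun ν : Fin N =>
      IsAlgClosed.exists_pow_nat_eq ((ω ^ (ν : ℕ)) ^ (N - 1) * ((N : ℂ) ^ 2)⁻¹) (show 0 < N by omega)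
    have key : ∀ z : ℂ, ∑ ν : Fin N, (ev (![ζ ν, ζ ν * ω ^ (ν : ℕ), 0]) z) ^ N = z := by
      intro z
      have h1 : ∀ ν : Fin N, (ev (![ζ ν, ζ ν * ω ^ (ν : ℕ), 0]) z) ^ N =
          ((N : ℂ) ^ 2)⁻¹ * ((ω ^ (ν : ℕ)) ^ (N - 1) *
            ∑ J ∈ range (N + 1), ((N.choose J : ℕ) : ℂ) * z ^ J * (ω ^ (ν : ℕ)) ^ J) := by
        intro ν
        have e1 : ev (![ζ ν, ζ ν * ω ^ (ν : ℕ), 0]) z = ζ ν * (ω ^ (ν : ℕ) * z + 1) := by
          simp [ev]; ring
        rw [e1, mul_pow, hζ, add_pow]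
        have e2 : ∀ J ∈ range (N + 1), (ω ^ (ν : ℕ) * z) ^ J * 1 ^ (N - J) * (N.choose J : ℂ) =
            ((N.choose J : ℕ) : ℂ) * z ^ J * (ω ^ (ν : ℕ)) ^ J := by
          intro J _
          rw [one_pow, mul_pow]; ring
        rw [Finset.sum_congr rfl e2]
        ring
      rw [Finset.sum_congr rfl (fun ν _ => h1 ν), ← Finset.mul_sum]
      rw [Fin.sum_univ_eq_sum_range (fun ν => (ω ^ ν) ^ (N - 1) *
            ∑ J ∈ range (N + 1), ((N.choose J : ℕ) : ℂ) * z ^ J * (ω ^ ν) ^ J) N]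
      rw [avg_class N ω hω (N + 1) 1 h2 (fun J => ((N.choose J : ℕ) : ℂ) * z ^ J)]
      have h3 : (range (N + 1)).filter (fun J => J % N = 1) = {1} := by
        ext J
        simp only [Finset.mem_filter, Finset.mem_range, Finset.mem_singleton]
        constructor
        · rintro ⟨hJ, hm⟩
          rcases Nat.lt_or_ge J N with h | h
          · rwa [Nat.mod_eq_of_lt h] at hm
          · have : J = N := by omega
            rw [this, Nat.mod_self] at hm
            omega
        · intro h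
          subst h
          exact ⟨by omega, Nat.mod_eq_of_lt h2⟩
      rw [h3, Finset.sum_singleton, Nat.choose_one_right, pow_one]
      field_simp
    have := represents_of_quadratics N (fun ν : Fin N => ![ζ ν, ζ ν * ω ^ (ν : ℕ), 0]) key
    rwa [Fintype.card_fin] at this
  · have : N = 1 := by omega
    subst this
    intro f hf
    exact ⟨fun _ => f, fun _ => hf, fun z => by simp⟩

/-- The set defining `kN` is nonempty, so `kN N` belongs to it. -/
lemma kN_mem (N : ℕ) (hN : 1 ≤ N) : 1 ≤ kN N ∧ Represents N (kN N) := by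
  have : (sInf {k : ℕ | 1 ≤ k ∧ Represents N k}) ∈ {k : ℕ | 1 ≤ k ∧ Represents N k} :=
    Nat.sInf_mem ⟨N, hN, represents_self N hN⟩
  exact this

lemma kN_le (N k : ℕ) (hk : 1 ≤ k) (h : Represents N k) : kN N ≤ k := Nat.sInf_le ⟨hk, h⟩

lemma main (j0 t : ℕ) (ht : 2 ≤ t) (h5 : 5 * t ≤ 3 * j0) (hj0 : 5 ≤ j0) :
    kN (3 * j0 + t) ≤ 2 * (j0 + t) + 2 := by
  obtain ⟨X, hX0, hXn, hroot⟩ := root_exists (3 * j0 + t + 1) (by omega) (j0 + (j0 + t)) j0 (j0 + t)
    (3 * j0 + t) rfl (by ring) (by omega) hj0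
  have hsq : (Real.sqrt X) ^ 2 = X := Real.sq_sqrt hX0.le
  obtain ⟨p, hp⟩ := exists_rep j0 (j0 + t) (by omega) (by omega) hj0 (Real.sqrt X)
    (Real.sqrt_pos.2 hX0) (3 * j0 + t) (by ring) (by rw [hsq]; exact hXn) (3 * j0 + t + 1) (by omega)
    (by rw [hsq]; exact hroot)
  have h1 := represents_of_quadratics (3 * j0 + t) p hp
  apply kN_le _ _ (by omega)
  have e : Fintype.card (Fin (2 * (j0 + t)) ⊕ Fin 2) = 2 * (j0 + t) + 2 := by
    simp [Fintype.card_sum]
  rwa [e] at h1

/-- For every `N ≥ 1` one has `k(N) ≤ (2 N + 22) / 3`. -/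
theorem result : ∀ N : ℕ, 1 ≤ N → 3 * kN N ≤ 2 * N + 22 := by
  intro N hN
  rcases Nat.lt_or_ge N 23 with h | h
  · have := kN_le N N hN (represents_self N hN)
    omega
  · have h3 : N % 3 = 0 ∨ N % 3 = 1 ∨ N % 3 = 2 := by omega
    rcases h3 with h3 | h3 | h3
    · have e : N = 3 * ((N - 3) / 3) + 3 := by omega
      have := main ((N - 3) / 3) 3 (by norm_num) (by omega) (by omega)
      rw [← e] at this
      omega
    · have e : N = 3 * ((N - 4) / 3) + 4 := by omega
      have := main ((N - 4) / 3) 4 (by norm_num) (by omega) (by omega)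
      rw [← e] at this
      omega
    · have e : N = 3 * ((N - 2) / 3) + 2 := by omega
      have := main ((N - 2) / 3) 2 (by norm_num) (by omega) (by omega)
      rw [← e] at this
      omega

end Pool.Agent.Results.MP_7b808b_an.TwoThirds
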